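import Pool.Agent.Helper43.LO.Goals

set_option autoImplicit false

/-!
# Project LO (MP_c13f7d_co): the final statement (FIN)
-/

namespace Pool.Agent.Helper35.LO

open Finset Pool.Agent.Helper33.Schur Pool.Agent.Helper43.LO

lemma colv (m x : ℕ) (hm : 1 ≤ m) (hx : 1 ≤ x) : col m x =
    if x ≤ 10 * m then 0 else if x ≤ 24 * m then 1 else if x ≤ 26 * m then 0
    else if x ≤ 54 * m then 2 else if x ≤ 55 * m then 0 else if x ≤ 66 * m then 1 else 0 := by
  have key : ∀ k : ℕ, (x - 1) / m < k ↔ x ≤ k * m := by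
    intro k
    rw [Nat.div_lt_iff_lt_mul hm]
    omega
  unfold col blk
  simp only [key]

/-- the places where the two reference colourings may differ -/
def bad (m : ℕ) : Finset ℕ :=
  ({10, 24, 26, 54, 55, 66} : Finset ℕ).biUnion (fun a => Ioc (a * m) (a * m + 66))

lemma bad_card (m : ℕ) : (bad m).card ≤ 396 := by
  unfold bad
  refine (Finset.card_biUnion_le_card_mul _ _ 66 ?_).trans ?_
  · intro a _
    rw [Nat.card_Ioc]
    omega
  · decide

lemma ref_eq (n x : ℕ) (hm : 1 ≤ n / 67) (hx : 1 ≤ x) (hb : x ∉ bad (n / 67)) :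
    ref n x = col (n / 67) x := by
  have hn := Nat.div_add_mod n 67
  have hr := Nat.mod_lt n (show 67 > 0 by norm_num)
  have hb' : ∀ a ∈ ({10, 24, 26, 54, 55, 66} : Finset ℕ),
      ¬ (a * (n / 67) < x ∧ x ≤ a * (n / 67) + 66) := by
    intro a ha h
    apply hb
    unfold bad
    rw [mem_biUnion]
    exact ⟨a, ha, mem_Ioc.2 h⟩
  have h10 := hb' 10 (by decide)
  have h24 := hb' 24 (by decide)
  have h26 := hb' 26 (by decide)
  have h54 := hb' 54 (by decide)
  have h55 := hb' 55 (by decide)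
  have h66 := hb' 66 (by decide)
  rw [colv _ x hm hx]
  unfold ref
  have k10 : 67 * x ≤ 10 * n ↔ x ≤ 10 * (n / 67) := by omega
  have k24 : 67 * x ≤ 24 * n ↔ x ≤ 24 * (n / 67) := by omega
  have k26 : 67 * x ≤ 26 * n ↔ x ≤ 26 * (n / 67) := by omega
  have k54 : 67 * x ≤ 54 * n ↔ x ≤ 54 * (n / 67) := by omega
  have k55 : 67 * x ≤ 55 * n ↔ x ≤ 55 * (n / 67) := by omega
  have k66 : 67 * x ≤ 66 * n ↔ x ≤ 66 * (n / 67) := by omega
  simp only [k10, k24, k26, k54, k55, k66]

/-- the number of differences, one way -/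
lemma dif_le (n : ℕ) (χ : ℕ → Fin 3) (hm : 1 ≤ n / 67) :
    (dif (67 * (n / 67)) χ (col (n / 67))).card ≤ (dif n χ (ref n)).card + 396 := by
  have h : dif (67 * (n / 67)) χ (col (n / 67)) ⊆ dif n χ (ref n) ∪ bad (n / 67) := by
    intro x hx
    unfold dif at hx
    rw [mem_filter, mem_Icc] at hx
    rw [mem_union]
    by_cases hb : x ∈ bad (n / 67)
    · exact Or.inr hb
    · left
      unfold dif
      rw [mem_filter, mem_Icc, ref_eq n x hm hx.1.1 hb]
      exact ⟨⟨hx.1.1, by omega⟩, hx.2⟩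
  refine (card_le_card h).trans ((card_union_le _ _).trans ?_)
  have := bad_card (n / 67)
  omega

/-- the number of differences, the other way -/
lemma le_dif (n : ℕ) (χ : ℕ → Fin 3) (hm : 1 ≤ n / 67) :
    (dif n χ (ref n)).card ≤ (dif (67 * (n / 67)) χ (col (n / 67))).card + 462 := by
  have h : dif n χ (ref n) ⊆
      dif (67 * (n / 67)) χ (col (n / 67)) ∪ (bad (n / 67) ∪ Ioc (67 * (n / 67)) n) := by
    intro x hx
    unfold dif at hx
    rw [mem_filter, mem_Icc] at hx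
    rw [mem_union, mem_union]
    by_cases hb : x ∈ bad (n / 67)
    · exact Or.inr (Or.inl hb)
    · by_cases hx2 : x ≤ 67 * (n / 67)
      · left
        unfold dif
        rw [mem_filter, mem_Icc, ← ref_eq n x hm hx.1.1 hb]
        exact ⟨⟨hx.1.1, hx2⟩, hx.2⟩
      · right
        right
        rw [mem_Ioc]
        omega
  refine (card_le_card h).trans ((card_union_le _ _).trans ?_)
  have h2 := card_union_le (bad (n / 67)) (Ioc (67 * (n / 67)) n)
  have h3 := bad_card (n / 67)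
  rw [Nat.card_Ioc] at h2
  have hn := Nat.div_add_mod n 67
  have hr := Nat.mod_lt n (show 67 > 0 by norm_num)
  omega

/-- ordered pairs against unordered pairs -/
lemma F_le (N : ℕ) (χ : ℕ → Fin 3) : F N χ ≤ 2 * schurMono χ N := by
  set A := (Icc 1 N ×ˢ Icc 1 N).filter
    (fun q : ℕ × ℕ => q.1 + q.2 ≤ N ∧ χ q.1 = χ q.2 ∧ χ q.2 = χ (q.1 + q.2)) with hA
  set U := (Icc 1 N ×ˢ Icc 1 N).filter
    (fun q : ℕ × ℕ => q.1 ≤ q.2 ∧ q.1 + q.2 ≤ N ∧ χ q.1 = χ q.2 ∧ χ q.2 = χ (q.1 + q.2)) with hU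
  have h1 : A ⊆ U ∪ U.image (fun q => (q.2, q.1)) := by
    intro q hq
    rw [hA, mem_filter, mem_product] at hq
    obtain ⟨⟨m1, m2⟩, s, c1, c2⟩ := hq
    rw [mem_union]
    rcases le_total q.1 q.2 with h | h
    · left
      rw [hU, mem_filter, mem_product]
      exact ⟨⟨m1, m2⟩, h, s, c1, c2⟩
    · right
      rw [mem_image]
      refine ⟨(q.2, q.1), ?_, rfl⟩
      rw [hU, mem_filter, mem_product]
      refine ⟨⟨m2, m1⟩, h, by simpa [add_comm] using s, c1.symm, ?_⟩
      simp only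
      rw [add_comm]
      exact c1.trans c2
  have h2 : F N χ = A.card := rfl
  have h3 : schurMono χ N = U.card := rfl
  rw [h2, h3]
  refine (card_le_card h1).trans ((card_union_le _ _).trans ?_)
  have := card_image_le (s := U) (f := fun q : ℕ × ℕ => (q.2, q.1))
  omega

lemma mono_mono (N n : ℕ) (χ : ℕ → Fin 3) (h : N ≤ n) : schurMono χ N ≤ schurMono χ n := by
  unfold schurMono
  refine card_le_card ?_
  intro q hq
  rw [mem_filter, mem_product, mem_Icc, mem_Icc] at hq ⊢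
  exact ⟨⟨⟨hq.1.1.1, by omega⟩, ⟨hq.1.2.1, by omega⟩⟩, hq.2.1, by omega, hq.2.2.2⟩

/-- the first part -/
lemma part1 (hMUL : G_MUL) (n : ℕ) (χ : ℕ → Fin 3)
    (hd : 12000 * (dif n χ (ref n)).card ≤ n) :
    (n : ℝ) ^ 2 / 134 + ((dif n χ (ref n)).card : ℝ) ^ 2 / 100 - 2000000 * n
      ≤ schurMono χ n := by
  have hnn : (0 : ℝ) ≤ n := Nat.cast_nonneg n
  have hs0 : (0 : ℝ) ≤ schurMono χ n := Nat.cast_nonneg _
  rcases lt_or_ge n 100000000 with hn | hn
  · have h1 : (n : ℝ) ≤ 100000000 := by exact_mod_cast hn.le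
    have h2 : ((dif n χ (ref n)).card : ℝ) ≤ n := by
      have : (dif n χ (ref n)).card ≤ n := by omega
      exact_mod_cast this
    have h3 : (0 : ℝ) ≤ ((dif n χ (ref n)).card : ℝ) := Nat.cast_nonneg _
    nlinarith
  · have hm : 1 ≤ n / 67 := by omega
    have h1 := dif_le n χ hm
    have h2 := le_dif n χ hm
    have h3 : 160 * (dif (67 * (n / 67)) χ (col (n / 67))).card ≤ n / 67 := by omega
    have h4 := hMUL (n / 67) χ hm h3
    have h5 := F_le (67 * (n / 67)) χ
    have h6 := mono_mono (67 * (n / 67)) n χ (by omega)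
    have h7 : n ≤ 67 * (n / 67) + 66 := by omega
    have h8 : 67 * (n / 67) ≤ n := by omega
    set m := n / 67 with hmdef
    set d := (dif n χ (ref n)).card with hddef
    set d' := (dif (67 * m) χ (col m)).card with hd'def
    set s := schurMono χ n with hsdef
    have r4 : 44 * (67 * (m : ℝ) ^ 2 - 13 * m) + (d' : ℝ) ^ 2 - 660 * d' ≤ 44 * (F (67 * m) χ : ℝ) := by
      exact_mod_cast h4
    have r5 : (F (67 * m) χ : ℝ) ≤ 2 * s := by
      have : F (67 * m) χ ≤ 2 * s := by omega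
      exact_mod_cast this
    have r7 : (n : ℝ) ≤ 67 * m + 66 := by exact_mod_cast h7
    have r8 : (67 : ℝ) * m ≤ n := by exact_mod_cast h8
    have r2 : (d : ℝ) ≤ d' + 462 := by exact_mod_cast h2
    have r3 : (160 : ℝ) * d' ≤ m := by exact_mod_cast h3
    have r0 : (0 : ℝ) ≤ d := Nat.cast_nonneg _
    have r0' : (0 : ℝ) ≤ d' := Nat.cast_nonneg _
    have rn : (100000000 : ℝ) ≤ n := by exact_mod_cast hn
    have rm : (0 : ℝ) ≤ m := Nat.cast_nonneg _
    have e1 : (n : ℝ) ^ 2 ≤ 4489 * (m : ℝ) ^ 2 + 200 * n := by nlinarith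
    have e2 : (d : ℝ) ^ 2 ≤ (25 / 22) * (d' : ℝ) ^ 2 + 9 * 462 ^ 2 := by
      nlinarith [sq_nonneg ((d' : ℝ) * 3 - 22 * 462)]
    nlinarith

/-- the second part -/
lemma part2 (n : ℕ) : (schurMono (ref n) n : ℝ) ≤ (n : ℝ) ^ 2 / 134 + 2000000 * n := by
  have hnn : (0 : ℝ) ≤ n := Nat.cast_nonneg n
  rcases Nat.lt_or_ge n 67 with hn | hn
  · have h1 : schurMono (ref n) n ≤ n * n := by
      unfold schurMono
      refine (card_filter_le _ _).trans ?_
      rw [card_product, Nat.card_Icc]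
      simp
    have h2 : (schurMono (ref n) n : ℝ) ≤ (n : ℝ) * n := by exact_mod_cast h1
    have h3 : (n : ℝ) ≤ 67 := by exact_mod_cast hn.le
    nlinarith
  · have hm : 1 ≤ n / 67 := by omega
    set B := bad (n / 67) ∪ Ioc (67 * (n / 67)) n with hB
    have hBc : B.card ≤ 462 := by
      have h2 := card_union_le (bad (n / 67)) (Ioc (67 * (n / 67)) n)
      have h3 := bad_card (n / 67)
      rw [Nat.card_Ioc] at h2
      have hn := Nat.div_add_mod n 67
      have hr := Nat.mod_lt n (show 67 > 0 by norm_num)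
      rw [hB]
      omega
    set S := (Icc 1 n ×ˢ Icc 1 n).filter
      (fun q : ℕ × ℕ => q.1 ≤ q.2 ∧ q.1 + q.2 ≤ n ∧ ref n q.1 = ref n q.2 ∧
        ref n q.2 = ref n (q.1 + q.2)) with hS
    set T := (Icc 1 (67 * (n / 67)) ×ˢ Icc 1 (67 * (n / 67))).filter
      (fun q : ℕ × ℕ => q.1 ≤ q.2 ∧ q.1 + q.2 ≤ 67 * (n / 67) ∧
        col (n / 67) q.1 = col (n / 67) q.2 ∧
        col (n / 67) q.2 = col (n / 67) (q.1 + q.2)) with hT
    set V := (Icc 1 n ×ˢ Icc 1 n).filter (fun q : ℕ × ℕ => q.1 + q.2 ∈ B) with hV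
    have hsub : S ⊆ T ∪ (B ×ˢ Icc 1 n ∪ (Icc 1 n ×ˢ B ∪ V)) := by
      intro q hq
      rw [hS, mem_filter, mem_product, mem_Icc, mem_Icc] at hq
      obtain ⟨⟨⟨a1, a2⟩, b1, b2⟩, l, s, c1, c2⟩ := hq
      by_cases k1 : q.1 ∈ B
      · rw [mem_union, mem_union]
        exact Or.inr (Or.inl (mem_product.2 ⟨k1, mem_Icc.2 ⟨b1, b2⟩⟩))
      by_cases k2 : q.2 ∈ B
      · rw [mem_union, mem_union, mem_union]
        exact Or.inr (Or.inr (Or.inl (mem_product.2 ⟨mem_Icc.2 ⟨a1, a2⟩, k2⟩)))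
      by_cases k3 : q.1 + q.2 ∈ B
      · have hqV : q ∈ V := by
          rw [hV, mem_filter, mem_product]
          exact ⟨⟨mem_Icc.2 ⟨a1, a2⟩, mem_Icc.2 ⟨b1, b2⟩⟩, k3⟩
        rw [mem_union, mem_union, mem_union]
        exact Or.inr (Or.inr (Or.inr hqV))
      rw [hB, mem_union, not_or] at k1 k2 k3
      have hs2 : q.1 + q.2 ≤ 67 * (n / 67) := by
        by_contra h
        exact k3.2 (mem_Ioc.2 ⟨by omega, s⟩)
      rw [mem_union]
      left
      rw [hT, mem_filter, mem_product, mem_Icc, mem_Icc, ← ref_eq n q.1 hm a1 k1.1,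
        ← ref_eq n q.2 hm b1 k2.1, ← ref_eq n (q.1 + q.2) hm (by omega) k3.1]
      exact ⟨⟨⟨a1, by omega⟩, ⟨b1, by omega⟩⟩, l, hs2, c1, c2⟩
    have hVc : V.card ≤ B.card * n := by
      have : V.card ≤ (B ×ˢ Icc 1 n).card := by
        refine card_le_card_of_injOn (fun q => (q.1 + q.2, q.1)) ?_ ?_
        · intro q hq
          have hq' : q ∈ V := hq
          rw [hV, mem_filter, mem_product] at hq'
          exact mem_product.2 ⟨hq'.2, hq'.1.1⟩
        · intro p _ q _ h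
          simp only [Prod.mk.injEq] at h
          exact Prod.ext h.2 (by omega)
      rwa [card_product, Nat.card_Icc, Nat.add_sub_cancel] at this
    have h1 : S.card ≤ T.card + 3 * (462 * n) := by
      refine (card_le_card hsub).trans ((card_union_le _ _).trans ?_)
      have e1 := card_union_le (B ×ˢ Icc 1 n) (Icc 1 n ×ˢ B ∪ V)
      have e2 := card_union_le (Icc 1 n ×ˢ B) V
      rw [card_product, Nat.card_Icc, Nat.add_sub_cancel] at e1 e2
      have e3 : B.card * n ≤ 462 * n := Nat.mul_le_mul_right _ hBc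
      have e4 : n * B.card = B.card * n := Nat.mul_comm _ _
      omega
    have h2 : schurMono (ref n) n = S.card := rfl
    have h3 : schurMono (col (n / 67)) (67 * (n / 67)) = T.card := rfl
    have h4 := mono_le (n / 67) (67 * (n / 67)) le_rfl
    have h5 := ord_card (n / 67) hm
    have h8 : 67 * (n / 67) ≤ n := by omega
    rw [h3] at h4
    rw [h2]
    set m := n / 67 with hmdef
    have h6 : 4 * S.card ≤ 134 * (m * m) + 134 * m + 12 * (462 * n) := by omega
    have r6 : 4 * (S.card : ℝ) ≤ 134 * ((m : ℝ) * m) + 134 * m + 12 * (462 * n) := by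
      exact_mod_cast h6
    have r8 : (67 : ℝ) * m ≤ n := by exact_mod_cast h8
    have rm : (0 : ℝ) ≤ m := Nat.cast_nonneg _
    nlinarith

theorem goalFIN (hMUL : G_MUL) : G_FIN :=
  ⟨2000000, part1 hMUL, part2⟩

end Pool.Agent.Helper35.LO
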